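import Mathlib
import Pool.Agent.H892.ZL.Stm

set_option autoImplicit false

namespace Pool.Agent.H127.ZL

open Pool.Agent.H892.ZL
open MvPolynomial Matrix

lemma comp_sum (f g : SA) (M : ℕ) : weightedHomogeneousComponent wty M (g * f) =
    ∑ i ∈ (weightedHomogeneousComponent_finsupp (w := wty) g).toFinset,
      weightedHomogeneousComponent wty M (weightedHomogeneousComponent wty i g * f) := by
  conv_lhs => rw [← sum_weightedHomogeneousComponent wty g]
  rw [finsum_eq_sum _ (weightedHomogeneousComponent_finsupp g), Finset.sum_mul, map_sum]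

lemma comp_one {f g : SA} {d : ℕ} (hf : IsWeightedHomogeneous wty f d) (M i : ℕ) :
    weightedHomogeneousComponent wty M (weightedHomogeneousComponent wty i g * f) =
      if M = i + d then weightedHomogeneousComponent wty i g * f else 0 := by
  have h : IsWeightedHomogeneous wty (weightedHomogeneousComponent wty i g * f) (i + d) :=
    (weightedHomogeneousComponent_isWeightedHomogeneous i g).mul hf
  exact weightedHomogeneousComponent_of_mem h

lemma comp_mul {f : SA} (g : SA) {d : ℕ} (hf : IsWeightedHomogeneous wty f d) (m : ℕ) :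
    weightedHomogeneousComponent wty (m + d) (g * f) =
      weightedHomogeneousComponent wty m g * f := by
  rw [comp_sum]
  simp only [comp_one hf]
  rw [Finset.sum_eq_single m]
  · rw [if_pos rfl]
  · intro i _ hi
    rw [if_neg]
    omega
  · intro hm
    rw [if_pos rfl]
    simp only [Set.Finite.mem_toFinset, Function.mem_support, ne_eq, not_not] at hm
    rw [hm, zero_mul]

lemma comp_dvd {f : SA} (g : SA) {d : ℕ} (hf : IsWeightedHomogeneous wty f d) (M : ℕ) :
    f ∣ weightedHomogeneousComponent wty M (g * f) := by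
  rw [comp_sum]
  refine Finset.dvd_sum fun i _ => ?_
  rw [comp_one hf]
  split_ifs
  · exact dvd_mul_left _ _
  · exact dvd_zero _

lemma inx_hom (s : MvPolynomial (Fin 3) ℂ) : IsWeightedHomogeneous wty (inx s) 0 := by
  induction s using MvPolynomial.induction_on with
  | C a =>
    unfold inx
    rw [rename_C]
    exact isWeightedHomogeneous_C wty a
  | add p q hp hq =>
    have : inx (p + q) = inx p + inx q := map_add _ _ _
    rw [this]
    exact hp.add hq
  | mul_X p i hp =>
    have : inx (p * X i) = inx p * X (Sum.inl i) := by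
      unfold inx
      rw [map_mul, rename_X]
    rw [this]
    have h := hp.mul (isWeightedHomogeneous_X ℂ wty (Sum.inl i))
    simpa [wty] using h

lemma vy_hom (j : Fin 3) : IsWeightedHomogeneous wty (vy j) 1 :=
  isWeightedHomogeneous_X ℂ wty (Sum.inr j)

lemma eval_gp (B : MvPolynomial (Fin 6) ℂ) (x y : Fin 3 → ℂ) :
    eval (pt x y) (aeval gp B) = eval (aff x y) B := by
  have h : (fun I => eval (pt x y) (gp I)) = aff x y := by
    funext I
    fin_cases I <;> simp [gp, aff, plu, pt]
  rw [← h, ← coe_aeval_eq_eval, ← coe_aeval_eq_eval]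
  show (aeval (pt x y)) ((aeval gp) B) = _
  have := (comp_aeval_apply gp (aeval (pt x y)) B).symm
  rw [← this]
  rfl

theorem t_N1 (h1 : S_KAPH) : S_N1 := by
  intro K hK _ s _ e A₁ B₁ hA hB _ hloc
  set A' : SA := aeval gp A₁ with hA'
  set B' : SA := aeval gp B₁ with hB'
  have wA : IsWeightedHomogeneous wty A' (e + 1) := h1 (e + 1) A₁ hA
  have wB : IsWeightedHomogeneous wty B' e := h1 e B₁ hB
  have wK : IsWeightedHomogeneous wty (kap K) 3 := h1 3 K hK.hom
  let a : Ideal SA := Submodule.comap (LinearMap.mulLeft SA A') (Ideal.span {kap K, B'})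
  have ha : ∀ b : SA, b ∈ a ↔ ∃ p q : SA, p * kap K + q * B' = A' * b := by
    intro b
    show A' * b ∈ Ideal.span {kap K, B'} ↔ _
    exact Ideal.mem_span_pair
  have hpow : ∀ j : Fin 3, ∃ N : ℕ, (inx s * vy j) ^ N ∈ a := by
    intro j
    have hrad : inx s * vy j ∈ a.radical := by
      rw [← vanishingIdeal_zeroLocus_eq_radical (K := ℂ), mem_vanishingIdeal_iff]
      intro z hz
      have hz' : ∀ p ∈ a, aeval z p = 0 := hz
      by_contra hne
      have hzpt : z = pt (fun i => z (Sum.inl i)) (fun i => z (Sum.inr i)) := by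
        funext i
        rcases i with i | i <;> rfl
      have e1 : aeval z (inx s * vy j) =
          eval (fun i => z (Sum.inl i)) s * z (Sum.inr j) := by
        rw [map_mul]
        unfold inx vy
        rw [aeval_rename, aeval_X]
        rfl
      rw [e1] at hne
      have hs : eval (fun i => z (Sum.inl i)) s ≠ 0 := left_ne_zero_of_mul hne
      have hy : (fun i => z (Sum.inr i)) ≠ 0 := by
        intro h0
        exact right_ne_zero_of_mul hne (congrFun h0 j)
      have hkz : eval (pt (fun i => z (Sum.inl i)) (fun i => z (Sum.inr i))) (kap K) = 0 := by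
        rw [← hzpt]
        exact hz' _ ((ha _).2 ⟨A', 0, by ring⟩)
      obtain ⟨n, A, B, _, _, hBne, q, hq⟩ := hloc _ _ hy hkz hs
      have hBa : aeval gp B ∈ a := (ha _).2 ⟨q, aeval gp A, by linear_combination -hq⟩
      have h0 := hz' _ hBa
      apply hBne
      rw [← eval_gp, ← hzpt]
      exact h0
    exact hrad
  choose N hN using hpow
  refine ⟨N 0 + N 1 + N 2, fun j => ?_⟩
  have hle : N j ≤ N 0 + N 1 + N 2 := by
    fin_cases j <;> simp <;> omega
  have hmem : (inx s * vy j) ^ (N 0 + N 1 + N 2) ∈ a := by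
    obtain ⟨c, hc⟩ := Nat.exists_eq_add_of_le hle
    rw [hc, pow_add]
    exact Ideal.mul_mem_right _ _ (hN j)
  generalize N 0 + N 1 + N 2 = M at hmem ⊢
  obtain ⟨p, q, hpq⟩ := (ha _).1 hmem
  have wP : IsWeightedHomogeneous wty (A' * (inx s * vy j) ^ M) (M + 1 + e) := by
    have h := wA.mul (((inx_hom s).mul (vy_hom j)).pow M)
    have e2 : e + 1 + M • (0 + 1) = M + 1 + e := by
      simp only [zero_add, smul_eq_mul, mul_one]
      omega
    rwa [e2] at h
  have hcomp := congrArg (weightedHomogeneousComponent wty (M + 1 + e)) hpq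
  rw [map_add, comp_mul q wB, weightedHomogeneousComponent_eq_self wP] at hcomp
  obtain ⟨r, hr⟩ := comp_dvd p wK (M + 1 + e)
  refine ⟨weightedHomogeneousComponent wty (M + 1) q,
    weightedHomogeneousComponent_isWeightedHomogeneous _ _, r, ?_⟩
  rw [hr] at hcomp
  linear_combination -hcomp

end Pool.Agent.H127.ZL
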